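import Mathlib
import Pool.Agent.CKB.Int
import Pool.Agent.CKB.Eta

set_option autoImplicit false

open Set Filter Topology

namespace Pool.Agent.Results.MP_0211b8_an.C1Bump

universe u

/-- For every scattered compact space `K`, every `0 < r < R` and every `e > 0` there is a function
of class `C^1` on `C(K)` with values in `[0, 1]`, equal to `1` on the ball of radius `r`, equal
to `0` outside the ball of radius `R`, with Lipschitz constant at most `(1 + e) / (R - r)`. -/
theorem result : ∀ (K : Type u) [TopologicalSpace K] [CompactSpace K] [T2Space K],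
    (∀ s : Set K, s.Nonempty → ∃ x ∈ s, ∃ U : Set K, IsOpen U ∧ U ∩ s = {x}) →
    ∀ r R e : ℝ, 0 < r → r < R → 0 < e →
      ∃ b : C(K, ℝ) → ℝ, ContDiff ℝ 1 b ∧ (∀ f, ‖f‖ ≤ r → b f = 1) ∧
        (∀ f, R ≤ ‖f‖ → b f = 0) ∧ (∀ f, 0 ≤ b f ∧ b f ≤ 1) ∧
        ∀ f g, |b f - b g| ≤ (1 + e) / (R - r) * ‖f - g‖ := by
  intro K _ _ _ hK r R e hr hrR he
  -- choice of the parameter
  have hRr : 0 < R - r := sub_pos.2 hrR
  have h1 : ∀ᶠ l : ℝ in 𝓝 0,
      (1 + l) / (1 - l) * (1 / (R - (1 + l) * r - 2 * l)) < (1 + e) / (R - r) := by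
    have hc : ContinuousAt
        (fun l : ℝ => (1 + l) / (1 - l) * (1 / (R - (1 + l) * r - 2 * l))) 0 := by
      apply ContinuousAt.mul
      · apply ContinuousAt.div
        · fun_prop
        · fun_prop
        · norm_num
      · apply ContinuousAt.div
        · fun_prop
        · fun_prop
        · simp only [add_zero, one_mul, mul_zero, sub_zero]
          exact hRr.ne'
    apply hc.eventually_lt continuousAt_const
    simp only [add_zero, sub_zero, div_one, one_mul, mul_zero]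
    exact div_lt_div_of_pos_right (by linarith) hRr
  have h2 : ∀ᶠ l : ℝ in 𝓝 0, 0 < R - (1 + l) * r - 2 * l := by
    apply ContinuousAt.eventually_lt
    · exact continuousAt_const
    · fun_prop
    · simp only [add_zero, one_mul, mul_zero, sub_zero]
      exact hRr
  have h3 : ∀ᶠ l : ℝ in 𝓝 0, l < 1 := gt_mem_nhds one_pos
  have h4 : ∀ᶠ l : ℝ in 𝓝[>] (0 : ℝ), l ∈ Ioi (0 : ℝ) := self_mem_nhdsWithin
  obtain ⟨l, ⟨⟨hl1, hl2⟩, hl3⟩, hl0⟩ :=
    ((((h1.and h2).and h3).filter_mono nhdsWithin_le_nhds).and h4).exists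
  have hl : 0 < l := hl0
  obtain ⟨F, hF, hFlip, hFb⟩ := Pool.Agent.CKB.exists_F hK hl hl3 (half_pos hr)
    (by linarith : r / 2 < r)
  obtain ⟨η, hη, hη1, hη0, hη01, hηlip⟩ := Pool.Agent.CKB.exists_eta (p := (1 + l) * r) (q := R)
    hl (by linarith)
  refine ⟨fun f => η (F f), hη.comp hF, ?_, ?_, fun f => hη01 _, ?_⟩
  · intro f hf
    apply hη1
    refine (hFb f).2.trans (max_le ?_ ?_)
    · nlinarith
    · gcongr
  · intro f hf
    apply hη0
    exact hf.trans ((le_max_right _ _).trans (hFb f).1)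
  · intro f g
    calc |η (F f) - η (F g)| ≤ 1 / (R - (1 + l) * r - 2 * l) * |F f - F g| := hηlip _ _
      _ ≤ 1 / (R - (1 + l) * r - 2 * l) * ((1 + l) / (1 - l) * ‖f - g‖) := by
          gcongr
          exact hFlip f g
      _ = (1 + l) / (1 - l) * (1 / (R - (1 + l) * r - 2 * l)) * ‖f - g‖ := by ring
      _ ≤ (1 + e) / (R - r) * ‖f - g‖ := by
          gcongr

end Pool.Agent.Results.MP_0211b8_an.C1Bump
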