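import Mathlib
import Pool.Agent.CKT.Qgb
import Pool.Agent.CKT.Sgg
import Pool.Agent.CKT.Lo1
import Pool.Agent.CKT.Wq1

/-!
# Compact spaces `K` such that `C(K)` has bump functions of class `C^∞`
-/

set_option autoImplicit false

open Set Filter Topology

namespace Pool.Agent.Results.MP_0211b8_an.GoodCompacta

open Pool.Agent.CKT

universe u

/-- The factors: compact scattered linearly ordered spaces, and Hausdorff images of one-point
compactifications of Hausdorff well quasi-ordered spaces or trees. -/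
def Factor (S : Type u) [TopologicalSpace S] : Prop :=
  (∃ _ : LinearOrder S, OrderTopology S ∧ CompactSpace S ∧
    ∀ s : Set S, s.Nonempty → ∃ x ∈ s, ∃ U : Set S, IsOpen U ∧ U ∩ s = {x}) ∨
  T2Space S ∧ ∃ (T : Type u) (_ : PartialOrder T) (_ : TopologicalSpace T), T2Space T ∧
    (IsWqo T ∨ IsTree T) ∧ ∃ p : OnePoint T → S, Continuous p ∧ Function.Surjective p

/-- The smallest class of compact Hausdorff spaces with the following properties. -/
inductive Cl : (K : Type u) → TopologicalSpace K → Prop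
  /-- compact subspaces of sigma-products of factors `S i` with base points `s i` -/
  | sigma (K : Type u) (t : TopologicalSpace K) (hc : CompactSpace K) (h2 : T2Space K)
      (I : Type u) (S : I → Type u) (tS : ∀ i, TopologicalSpace (S i)) (s : ∀ i, S i)
      (φ : K → ∀ i, S i) (hS : ∀ i, Factor (S i)) (hφ : Continuous φ)
      (hi : Function.Injective φ) (hf : ∀ x, {i | φ x i ≠ s i}.Finite) : Cl K t
  /-- continuous images -/
  | image (K K' : Type u) (t : TopologicalSpace K) (t' : TopologicalSpace K')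
      (h2 : T2Space K') (p : K → K') (hp : Continuous p) (hs : Function.Surjective p)
      (h : Cl K t) : Cl K' t'
  /-- open maps onto spaces of the class with fibres in the class -/
  | opn (X K : Type u) (t : TopologicalSpace X) (t' : TopologicalSpace K) (hc : CompactSpace X)
      (h2 : T2Space X) (h : Cl K t') (φ : X → K) (hφ : Continuous φ) (ho : IsOpenMap φ)
      (hs : Function.Surjective φ) (h' : ∀ x, Cl (φ ⁻¹' {x} : Set X) inferInstance) : Cl X t
  /-- countable unions of closed sets -/
  | union (K : Type u) (t : TopologicalSpace K) (hc : CompactSpace K) (h2 : T2Space K)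
      (E : ℕ → Set K) (hE : ∀ n, IsClosed (E n)) (hu : ⋃ n, E n = univ)
      (h : ∀ n, Cl (E n) inferInstance) : Cl K t
  /-- countable filtrations -/
  | filt (K : Type u) (t : TopologicalSpace K) (hc : CompactSpace K) (h2 : T2Space K)
      (D : Set K) (hD : IsClosed D) (ρ : K → ℚ)
      (hρ : ∀ q : ℚ, IsClosed (D ∪ {x | q ≤ ρ x}) ∧ IsClosed (D ∪ {x | q < ρ x}))
      (h : Cl D inferInstance)
      (h' : ∀ q : ℚ, Cl (OnePoint ({x | x ∉ D ∧ ρ x = q} : Set K)) inferInstance) : Cl K t
  /-- maps to spaces `K` such that `K` minus `D` is sigma-discrete -/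
  | fib (X K : Type u) (t : TopologicalSpace X) (t' : TopologicalSpace K) (hc : CompactSpace X)
      (h2 : T2Space X) (h2' : T2Space K) (φ : X → K) (hφ : Continuous φ) (D : Set K)
      (hD : IsClosed D) (P : K → ℕ)
      (hP : ∀ x, x ∉ D → ∃ V ∈ 𝓝 x, ∀ y ∈ V, y ∉ D → P y = P x → y = x)
      (h : Cl (φ ⁻¹' D : Set X) inferInstance)
      (h' : ∀ x, x ∉ D → Cl (φ ⁻¹' {x} : Set X) inferInstance) : Cl X t
  /-- well founded orders with compact open sets `Iic t` -/
  | order (K : Type u) (t : TopologicalSpace K) (hc : CompactSpace K) (h2 : T2Space K)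
      (D : Set K) (hD : IsClosed D) (o : PartialOrder (Dᶜ : Set K))
      (hw : WellFounded (fun a b : (Dᶜ : Set K) => a < b))
      (hi : ∀ t : (Dᶜ : Set K), IsOpen (Iic t) ∧ IsCompact (Iic t)) (h : Cl D inferInstance)
      (h' : ∀ x : (Dᶜ : Set K), Cl (closure (Subtype.val '' mins x) ∪ D : Set K) inferInstance) :
      Cl K t
  /-- reference systems -/
  | sysp (K : Type u) (t : TopologicalSpace K) (hc : CompactSpace K) (h2 : T2Space K)
      (D : Set K) (hD : IsClosed D) (ι : Type u) (Y F : ι → Set K) (hS : SysP K D ι Y F)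
      (h : Cl D inferInstance) (hY : ∀ j, Cl (Y j) inferInstance)
      (hF : ∀ j, Cl (F j) inferInstance) : Cl K t

theorem factor_t2 (S : Type u) [TopologicalSpace S] (h : Factor S) : T2Space S := by
  rcases h with ⟨_, _, _⟩ | ⟨h, _⟩
  · exact inferInstance
  · exact h

theorem factor_sggP (S : Type u) [TopologicalSpace S] (s : S) (h : Factor S) : SggP S := by
  classical
  rcases h with ⟨_, _, _, h⟩ | ⟨_, T, _, _, h1, h2, p, h3, h4⟩
  · obtain ⟨T, _, _, h1, _, h2, p, hp, hs⟩ := exists_tree_image S h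
    let f : OnePoint T → S := fun z => OnePoint.elim z s p
    refine ⟨T, inferInstance, inferInstance, f, h2, tree_wqo T h1, ?_, ?_⟩
    · rw [OnePoint.continuous_iff]
      refine ⟨?_, hp⟩
      rw [coclosedCompact_eq_cocompact, cocompact_eq_bot]
      exact tendsto_bot
    · intro y
      obtain ⟨x, hx⟩ := hs y
      exact ⟨x, hx⟩
  · exact ⟨T, inferInstance, inferInstance, p, h1, h2.elim id (tree_wqo T), h3, h4⟩

/-- All spaces of the class have bump functions of class `C^∞`. -/
theorem result (K : Type u) (t : TopologicalSpace K) (hK : Cl K t) :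
    ∃ _ : CompactSpace K, T2Space K ∧ ∀ r R : ℝ, 0 < r → r < R →
      ∃ b : C(K, ℝ) → ℝ, ContDiff ℝ (⊤ : ℕ∞) b ∧ (∀ f, Loc b f) ∧
        (∀ f, 0 ≤ b f ∧ b f ≤ 1) ∧ (∀ f, ‖f‖ ≤ r → b f = 1) ∧ ∀ f, R ≤ ‖f‖ → b f = 0 := by
  have key : @Qg K t := by
    induction hK with
    | sigma K t hc h2 I S tS s φ hS hφ hi hf =>
      have h5 : ∀ i, T2Space (S i) := fun i => factor_t2 (S i) (hS i)
      exact qg_base K ∅ (R_sigmaG K I S (fun i => factor_sggP (S i) (s i) (hS i)) s φ hφ hi hf)
        (qg_point _)
    | image K K' t t' h2 p hp hs h ih => exact qg_image K K' p hp hs ih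
    | opn X K t t' hc h2 h φ hφ ho hs h' ih ih' => exact qg_open X K ih φ hφ ho hs ih'
    | union K t hc h2 E hE hu h ih => exact qg_union K E hE hu ih
    | filt K t hc h2 D hD ρ hρ h h' ih ih' => exact qg_filt K D hD ρ hρ ih ih'
    | fib X K t t' hc h2 h2' φ hφ D hD P hP h h' ih ih' =>
      exact qg_fib X K φ hφ D hD P hP ih ih'
    | order K t hc h2 D hD o hw hi h h' ih ih' =>
      exact qg_wf K D hD hw (fun t => (hi t).1) (fun t => (hi t).2) ih ih'
    | sysp K t hc h2 D hD ι Y F hS h hY hF ih ihY ihF =>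
      exact qg_sysp K D hD ι Y F hS ih ihY ihF
  exact qg_good K key

end Pool.Agent.Results.MP_0211b8_an.GoodCompacta
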