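import Mathlib
import Pool.Agent.CKT.Rcm

/-!
# Compact spaces built by chains of retractions, and bump functions of class `C^∞`
-/

set_option autoImplicit false

open Set Filter Topology

namespace Pool.Agent.Results.MP_0211b8_an.RetractionClass

open Pool.Agent.CKT

universe u

/-- Let `K` be a scattered member of the class `RC`, the smallest class of compact Hausdorff
spaces which contains the metrizable ones and is closed under countable unions of closed
subspaces, products, retracts, and chains of retractions (with increments which are small or
covered by countably many members of the class). Then `K` is good: `C(K)` has bump functions of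
class `C^∞` with prescribed radii, which locally depend on finitely many coordinates. Moreover,
if `X` is a compact Hausdorff space with an open map onto `K` with good fibres, then `X` is
good. -/
theorem result (K : Type u) [t : TopologicalSpace K] (h : RC K t)
    (hK : ∀ s : Set K, s.Nonempty → ∃ x ∈ s, ∃ U : Set K, IsOpen U ∧ U ∩ s = {x}) :
    IsGood K ∧ ∀ (X : Type u) [TopologicalSpace X] [CompactSpace X] [T2Space X] (φ : X → K),
      Continuous φ → IsOpenMap φ → Function.Surjective φ →
      (∀ x, IsGood (φ ⁻¹' {x} : Set X)) → IsGood X := by
  obtain ⟨_, _, hF⟩ := rc_hasF h
  have hQ : Qg K := by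
    rcases isEmpty_or_nonempty K with hE | hE
    · exact qg_finite K
    obtain ⟨rk, hrk⟩ := exists_rk K hK
    obtain ⟨x₀, hmax, hfin⟩ := rk_max K rk hrk
    exact hasF_main (rk x₀) _ K hF rk hrk hmax hfin le_rfl
  exact ⟨qg_good K hQ, hQ.2.2⟩

end Pool.Agent.Results.MP_0211b8_an.RetractionClass
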