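import Mathlib
import Pool.Agent.CKT.Skq
import Pool.Agent.CKT.Skm

/-!
# Scattered compact spaces with a retractional skeleton, and bump functions of class `C^∞`
-/

set_option autoImplicit false

open Set Filter Topology

namespace Pool.Agent.Results.MP_0211b8_an.RetractionalSkeleton

open Pool.Agent.CKT

universe u

/-- Let `K` be a scattered compact Hausdorff space with a retractional skeleton `r s` (`s ∈ S`),
the images of the retractions being metrizable. Then `K` is good: `C(K)` has bump functions of
class `C^∞` with prescribed radii, which locally depend on finitely many coordinates. Moreover,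
if `X` is a compact Hausdorff space with an open map onto `K` with good fibres, then `X` is
good. -/
theorem result (K : Type u) [TopologicalSpace K] [CompactSpace K] [T2Space K]
    (hK : ∀ s : Set K, s.Nonempty → ∃ x ∈ s, ∃ U : Set K, IsOpen U ∧ U ∩ s = {x})
    (S : Type u) [Preorder S] (r : S → K → K) (h : Skel K S r)
    (hm : ∀ s, TopologicalSpace.MetrizableSpace (range (r s))) :
    IsGood K ∧ ∀ (X : Type u) [TopologicalSpace X] [CompactSpace X] [T2Space X] (φ : X → K),
      Continuous φ → IsOpenMap φ → Function.Surjective φ →
      (∀ x, IsGood (φ ⁻¹' {x} : Set X)) → IsGood X := by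
  have hcount : ∀ s, (range (r s)).Countable := by
    intro s
    have hcc : CompactSpace (range (r s)) :=
      isCompact_iff_compactSpace.1 (isCompact_range (h.cont s))
    have := hm s
    refine Set.countable_coe_iff.1 (scattered_countable (range (r s)) fun A hA => ?_)
    obtain ⟨x, ⟨a, ha, rfl⟩, U, hU, hUx⟩ := hK (Subtype.val '' A) (hA.image _)
    refine ⟨a, ha, Subtype.val ⁻¹' U, hU.preimage continuous_subtype_val, ?_⟩
    ext b
    constructor
    · rintro ⟨hb, hbA⟩
      have h1 : (b : K) ∈ U ∩ Subtype.val '' A := ⟨hb, b, hbA, rfl⟩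
      rw [hUx] at h1
      exact Subtype.ext h1
    · intro hb
      have h1 : b = a := hb
      subst h1
      have h2 : (b : K) ∈ U ∩ Subtype.val '' A := by
        rw [hUx]
        rfl
      exact ⟨h2.1, ha⟩
  have hQ : Qg K := by
    rcases isEmpty_or_nonempty K with hE | hE
    · exact qg_finite K
    obtain ⟨rk, hrk⟩ := exists_rk K hK
    obtain ⟨x₀, hmax, hfin⟩ := rk_max K rk hrk
    exact skel_main_qg (rk x₀) _ K S r h hcount rk hrk hmax hfin le_rfl
  exact ⟨qg_good K hQ, hQ.2.2⟩

end Pool.Agent.Results.MP_0211b8_an.RetractionalSkeleton
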